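import Pool.Agent.H19.LsB

/-! An infinite compact `l`-stable space which is not `S`-stable. -/

namespace Pool.Agent.Results.MP_916210_gt.Compact

/-- The topology of pointwise convergence on `C(X, ℝ)`. -/
def pw (X : Type) [TopologicalSpace X] : TopologicalSpace C(X, ℝ) :=
  TopologicalSpace.induced (fun f : C(X, ℝ) => (f : X → ℝ)) inferInstance

/-- `C_p(X)` and `C_p(Y)` are linearly homeomorphic. -/
def LEquiv (X Y : Type) [TopologicalSpace X] [TopologicalSpace Y] : Prop :=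
  ∃ e : C(X, ℝ) ≃ₗ[ℝ] C(Y, ℝ),
    @Continuous _ _ (pw X) (pw Y) e ∧ @Continuous _ _ (pw Y) (pw X) e.symm

/-- `A` is `l`-embedded in `X`. -/
def LEmbedded {X : Type} [TopologicalSpace X] (A : Set X) : Prop :=
  ∃ φ : C(A, ℝ) →ₗ[ℝ] C(X, ℝ),
    @Continuous _ _ (pw A) (pw X) φ ∧ ∀ f : C(A, ℝ), ∀ a : A, φ f a = f a

/-- `X` is `l`-stable. -/
def LStable (X : Type) [TopologicalSpace X] : Prop :=
  ∀ A : Set X, LEmbedded A → LEquiv X (X ⊕ A)

/-- `X` is `S`-stable. -/
def SStable (X : Type) [TopologicalSpace X] : Prop := LEquiv (X × OnePoint ℕ) X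

theorem result : ∃ (X : Type) (_ : TopologicalSpace X),
    CompactSpace X ∧ T2Space X ∧ Infinite X ∧ LStable X ∧ ¬ SStable X :=
  ⟨Ultrafilter (ℕ × ℕ), inferInstance, inferInstance, inferInstance,
    Infinite.of_injective _ Ultrafilter.pure_injective,
    fun A ⟨φ, hφ, hφ'⟩ => Pool.Agent.H19.Ls.lstable A φ hφ hφ',
    fun ⟨e, he, he'⟩ => Pool.Agent.H19.Ls.not_sstable e he he'⟩

end Pool.Agent.Results.MP_916210_gt.Compact
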